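import Pool.Agent.TH101.RG.TupMult

set_option autoImplicit false

/-!
# Every admissible tuple of the range of the record gaps, isolated in all rational multiples

The coloured Maynard-Tao theorem for ARBITRARY admissible `K`-tuples `t` of the range `[0, (log X)²]` (they may
depend on `X`), with prime-free intervals of the record length around all the rational multiples of bounded height
of an arbitrary linear image `a n + b`, `|b| ≤ X^D`, uniformly.

The covering sieve of helper256 and team, Maynard-Tao sieve in the record windows of helper312's team and the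
coloured theorem of helper362 (starting files) are used in forms in which the class of `n` modulo the small primes
avoids `K` prescribed classes for each prime, the points of the window of `a n + b` are covered by primes with
arbitrary residues, and one shift of the window is chosen such that few points survive (`Pool.Agent.TH101.RG`).
-/

open Filter

namespace Pool.Agent.Results.MP_f9960f_nt.EveryAdmissibleTuple

/-- The record scale `f(x) = log x (log₂ x)² log₄ x / (log₃ x)²` (iterated natural logarithms). -/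
noncomputable def f (x : ℝ) : ℝ :=
  Real.log x * (Real.log (Real.log x)) ^ 2 * Real.log (Real.log (Real.log (Real.log x))) /
    (Real.log (Real.log (Real.log x))) ^ 2

/-- There is `η > 0` and for every `m` there is `K ≥ m` such that the following holds. Let `J, D, A₀` be given and
`d` squarefree. There is `c > 0` such that for all large `X`: let `t_1, …, t_K` be distinct integers of
`[0, (log X)²]` such that for every prime `p` the `v + t_j` are prime to `p` for some `v`, let the `h + t_j` be prime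
to `d`, let the `K` indices be coloured with `m` colours, each used at least `K/(2m)` times, and let `a ≠ 0`, `b` be
integers with `|a| ≤ (log X)^D`, `|a| ≤ A₀ φ(|a|)`, `|b| ≤ X^D`. Then for at least `X^(7/8)` integers
`n ≡ h (mod d)` of `(X, 3X]` at least `η m` of the colours contain an index `j` with `n + t_j` prime, and for all
`1 ≤ |i|, |j| ≤ J` every prime `q` with `|j q - i (a n + b)| ≤ c f(X)` is one of the `n + t_l`. -/
theorem result : ∃ η : ℝ, 0 < η ∧ ∀ m : ℕ, 1 ≤ m → ∃ K : ℕ, m ≤ K ∧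
    ∀ (J D : ℕ) (A₀ : ℝ) (d : ℕ), Squarefree d → ∃ c : ℝ, 0 < c ∧ ∃ X₀ : ℝ, ∀ X : ℝ, X₀ ≤ X →
    ∀ t : Fin K → ℕ, Function.Injective t → (∀ j, (t j : ℝ) ≤ (Real.log X) ^ 2) →
    (∀ p : ℕ, p.Prime → ∃ v : ℕ, ∀ j, ¬ p ∣ v + t j) →
    ∀ h : ℕ, (∀ j, (h + t j).Coprime d) →
    ∀ col : Fin K → Fin m, (∀ e, K ≤ 2 * m * {j | col j = e}.ncard) →
    ∀ a b : ℤ, a ≠ 0 → |(a : ℝ)| ≤ (Real.log X) ^ D → |(a : ℝ)| ≤ A₀ * (a.natAbs.totient : ℝ) →
    |(b : ℝ)| ≤ X ^ D →
    X ^ (7 / 8 : ℝ) ≤ ({n : ℕ | X < n ∧ (n : ℝ) ≤ 3 * X ∧ n ≡ h [MOD d] ∧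
      η * m ≤ ({e : Fin m | ∃ j, col j = e ∧ (n + t j).Prime}.ncard : ℝ) ∧
      ∀ i j : ℤ, 1 ≤ |i| → |i| ≤ J → 1 ≤ |j| → |j| ≤ J → ∀ q : ℕ, q.Prime →
        |((j * q - i * (a * n + b) : ℤ) : ℝ)| ≤ c * f X → ∃ l, q = n + t l}.ncard : ℝ) := by
  classical
  obtain ⟨η, hη, H⟩ := Pool.Agent.TH101.RG.tuple_multiples
  refine ⟨η, hη, fun m hm => ?_⟩
  obtain ⟨K, hmK, HK⟩ := H m hm
  refine ⟨K, hmK, fun J D A₀ d hd => ?_⟩
  obtain ⟨c, hc, hX⟩ := HK J D A₀ d hd
  obtain ⟨X₀, hX₀⟩ := eventually_atTop.1 hX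
  refine ⟨c, hc, X₀, fun X hXX t htinj htl hadm h hh col hcol a b ha haD haφ hb => ?_⟩
  set S := {n : ℕ | X < n ∧ (n : ℝ) ≤ 3 * X ∧ n ≡ h [MOD d] ∧
      η * m ≤ ({e : Fin m | ∃ j, col j = e ∧ (n + t j).Prime}.ncard : ℝ) ∧
      ∀ i j : ℤ, 1 ≤ |i| → |i| ≤ J → 1 ≤ |j| → |j| ≤ J → ∀ q : ℕ, q.Prime →
        |((j * q - i * (a * n + b) : ℤ) : ℝ)| ≤ c * f X → ∃ l, q = n + t l} with hS
  have hfin : S.Finite := by
    apply (Set.finite_Iic ⌊3 * X⌋₊).subset
    intro p hp
    exact Set.mem_Iic.2 (Nat.le_floor hp.2.1)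
  by_contra hcon
  push Not at hcon
  rw [Set.ncard_eq_toFinset_card S hfin] at hcon
  obtain ⟨n, hXn, hn3, hnb, hnd, ⟨E, hE1, hE2⟩, hmain⟩ := hX₀ X hXX a b ha haD haφ hb t htinj htl hadm h hh col
    (fun e => by
      have h1 : {j | col j = e}.ncard = Pool.Agent.H362R2.RQ.fib col e := by
        rw [Set.ncard_eq_toFinset_card']
        unfold Pool.Agent.H362R2.RQ.fib
        congr 1
        ext j
        simp
      rw [← h1]
      exact hcol e) hfin.toFinset hcon.le
  apply hnb
  rw [Set.Finite.mem_toFinset]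
  refine ⟨hXn, hn3, hnd, hE1.trans ?_, hmain⟩
  have h1 : (E : Set (Fin m)) ⊆ {e : Fin m | ∃ j, col j = e ∧ (n + t j).Prime} := fun e he => hE2 e he
  have h2 := Set.ncard_le_ncard h1 (Set.toFinite _)
  rw [Set.ncard_coe_finset] at h2
  exact_mod_cast h2

end Pool.Agent.Results.MP_f9960f_nt.EveryAdmissibleTuple
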