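import Pool.Agent.W199.LPMain

set_option autoImplicit false

/-!
# All numbers in an interval `[0, c]` are limit points of the normalised prime gaps at the record scale

Let `f(x) = log x (log₂ x)² log₄ x / (log₃ x)²`, the size of the largest gaps between consecutive
primes that are known to occur up to `x`.  The theorem rests on the coloured Maynard-Tao theorem inside
the record windows (`Pool.Agent.H362R2.RQ.stRQ`, helper362, and `Pool.Agent.H672R3.InfRec.lp`,
helper672), the record sieve of helper256 and helper410 and the Maynard-Tao sieve inside record windows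
of helper312's team; the passage from the `K`-tuple property to an interval is due to helper199
(`Pool.Agent.W199`, theorems `first_interval` and `last_interval`, which were not handed in).
-/

open Filter

namespace Pool.Agent.Results.MP_f9960f_nt.IntervalOfLimitPoints

/-- The record scale `f(x) = log x (log₂ x)² log₄ x / (log₃ x)²` (iterated natural logarithms). -/
noncomputable def f (x : ℝ) : ℝ :=
  Real.log x * (Real.log (Real.log x)) ^ 2 * Real.log (Real.log (Real.log (Real.log x))) /
    (Real.log (Real.log (Real.log x))) ^ 2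

/-- The prime with index `n` (`p 0 = 2`). -/
noncomputable def p (n : ℕ) : ℕ := Nat.nth Nat.Prime n

/-- The gap `p (n + 1) - p n`. -/
noncomputable def gap (n : ℕ) : ℝ := (p (n + 1) : ℝ) - p n

/-- **An interval of limit points.**  Let `m ≥ 0` and `ε > 0`, let `q` be squarefree and `a` prime to
`q`.  There is `c > 0` such that for EVERY real `x ∈ [0, c]` and every `η > 0`:

* there are infinitely many `n` such that the primes `p n, …, p (n + m + 1)` are all congruent to `a`
  modulo `q`, `|gap n / f (p n) - x| < η`, and each of the `m` following gaps is at most `ε` times the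
  preceding one: `gap (n + 1) ≤ ε gap n`, …, `gap (n + m) ≤ ε gap (n + m - 1)`;
* there are infinitely many `n` such that the primes `p n, …, p (n + m + 1)` are all congruent to `a`
  modulo `q`, `|gap (n + m) / f (p n) - x| < η`, and each of the `m` preceding gaps is at most `ε` times
  the next one: `gap n ≤ ε gap (n + 1)`, …, `gap (n + m - 1) ≤ ε gap (n + m)`. -/
theorem result (m : ℕ) (ε : ℝ) (hε : 0 < ε) (q a : ℕ) (hq : Squarefree q) (ha : a.Coprime q) :
    ∃ c : ℝ, 0 < c ∧ ∀ x : ℝ, 0 ≤ x → x ≤ c → ∀ η : ℝ, 0 < η →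
      (∃ᶠ n : ℕ in atTop, (∀ i : ℕ, i ≤ m + 1 → p (n + i) ≡ a [MOD q]) ∧
        (∀ i : ℕ, i < m → gap (n + i + 1) ≤ ε * gap (n + i)) ∧
        |gap n / f (p n) - x| < η) ∧
      (∃ᶠ n : ℕ in atTop, (∀ i : ℕ, i ≤ m + 1 → p (n + i) ≡ a [MOD q]) ∧
        (∀ i : ℕ, i < m → gap (n + i) ≤ ε * gap (n + i + 1)) ∧
        |gap (n + m) / f (p n) - x| < η) := by
  obtain ⟨c₁, hc₁, h₁⟩ := Pool.Agent.W199.LPMain.first_interval m ε hε q a hq ha
  obtain ⟨c₂, hc₂, h₂⟩ := Pool.Agent.W199.LPMain.last_interval m ε hε q a hq ha
  refine ⟨min c₁ c₂, lt_min hc₁ hc₂, fun x hx0 hxc η hη => ⟨?_, ?_⟩⟩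
  · exact h₁ ⟨hx0, hxc.trans (min_le_left _ _)⟩ η hη
  · exact h₂ ⟨hx0, hxc.trans (min_le_right _ _)⟩ η hη

end Pool.Agent.Results.MP_f9960f_nt.IntervalOfLimitPoints
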