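import Pool.Agent.TH29.GO.Orders
import Pool.Agent.TH29.GP.Fin

set_option autoImplicit false

/-!
# Orderings of consecutive prime gaps which occur with positive density

In Cramér's random model `k` consecutive gaps have each of the `k!` orderings with density `1 / k!`.
For the primes themselves we show: each of the six orderings of three consecutive gaps occurs for a
set of primes of positive lower density, even if each gap has to be at least `A` times every smaller
one and all three gaps have to be at least `M log p`.  The same holds for six orderings of `k`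
consecutive gaps and their reversals, for every `k ≥ 3`, and for all patterns of rises and falls of
four consecutive gaps.

Method.  A coloured version of the positive proportion theorem for primes in prescribed places
(`Pool.Agent.TH29.GP.colP`): given `k` colours and `K` tiny places for each colour in a window of
length `Λ log X`, for a positive proportion of the `n ≤ X` the primes of the window are exactly one
prime in each place of a set of places which meets a quarter of the colours.  The places are
arranged in groups with separated scales such that the order pattern does not depend on the unknown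
set of places (`Pool.Agent.TH29.GO.Force`).
-/

namespace Pool.Agent.Results.MP_f9960f_nt.OrderingsOfPositiveDensity

/-- The `i`-th prime, numbered from `p 0 = 2`. -/
noncomputable def p (i : ℕ) : ℕ := Nat.nth Nat.Prime i

/-- The gap after the prime `p i`. -/
noncomputable def d (i : ℕ) : ℝ := (p (i + 1) : ℝ) - p i

/-- The `k` gaps after the prime `p n` are at least `M log p n` and they are compatible with the
relation `lt` with the factor `A`. -/
def Follow {k : ℕ} (lt : Fin k → Fin k → Prop) (A M : ℝ) (n : ℕ) : Prop :=
  (∀ i : Fin k, M * Real.log (p n) ≤ d (n + i)) ∧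
  ∀ i j : Fin k, lt i j → A * d (n + i) ≤ d (n + j)

/-- For all `A` and `M` the set of the `n` for which the `k` gaps after the prime `p n` satisfy
`Follow lt A M n` has positive lower density. -/
def PositiveDensity {k : ℕ} (lt : Fin k → Fin k → Prop) : Prop :=
  ∀ A M : ℝ, ∃ c : ℝ, 0 < c ∧ ∃ N₀ : ℕ, ∀ N : ℕ, N₀ ≤ N →
    c * N ≤ ({n : ℕ | n < N ∧ Follow lt A M n}.ncard : ℝ)

/-- Six orderings of `k` gaps: the gap number `i < k` has the rank `o i` among the `k` gaps.
In words, with ranks counted from `1`: `1, …, k`; `1, …, k-2, k, k-1`; `k-2, …, 1, k, k-1`;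
`2, …, k, 1`; `k-1, …, 1, k`; `1, k, 2, …, k-1`. -/
def orders (k : ℕ) : List (ℕ → ℕ) :=
  [fun i => i,
   fun i => if i + 2 < k then i else 2 * k - 3 - i,
   fun i => if i + 2 < k then k - 3 - i else 2 * k - 3 - i,
   fun i => if i + 1 < k then i + 1 else 0,
   fun i => if i + 1 < k then k - 2 - i else k - 1,
   fun i => if i = 0 then 0 else if i = 1 then k - 1 else i - 1]

open Pool.Agent.TH29.GO

theorem occ (k : ℕ) (σ : ℕ → ℕ) (lt : Fin k → Fin k → Prop) (h : ∀ c₀, 1 ≤ c₀ → Forces c₀ k σ)
    (hlt : ∀ i j, lt i j → σ i < σ j) : PositiveDensity lt := by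
  classical
  intro A M
  obtain ⟨c, hc, N₀, hN₀⟩ := Pool.Agent.TH29.GP.density (h 4 (by norm_num)) A M
  refine ⟨c, hc, N₀, fun N hN => (hN₀ N hN).trans ?_⟩
  rw [Nat.cast_le]
  have hfin : {n : ℕ | n < N ∧ Follow lt A M n}.Finite :=
    (Set.finite_Iio N).subset fun n hn => hn.1
  rw [← Set.ncard_coe_finset]
  refine Set.ncard_le_ncard ?_ hfin
  intro n hn
  rw [Finset.mem_coe, Finset.mem_filter, Finset.mem_range] at hn
  obtain ⟨h1, h2, h3⟩ := hn
  exact ⟨h1, fun i => h2 i i.2, fun i j hij => h3 i j i.2 j.2 (hlt i j hij)⟩

/-- Orderings of consecutive prime gaps of positive lower density, see `PositiveDensity`.  For every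
`k ≥ 3` the six orderings `orders k` of `k` consecutive gaps, and their reversals (twelve orderings
if `k ≥ 4`), have positive lower density.  In particular every ordering of three consecutive gaps has
positive lower density, and so has every pattern of rises (`ε l = true`) and falls (`ε l = false`) of
four consecutive gaps. -/
theorem result :
    (∀ k : ℕ, 3 ≤ k → ∀ o ∈ orders k, PositiveDensity (fun i j : Fin k => o i < o j) ∧
      PositiveDensity (fun i j : Fin k => o (k - 1 - i) < o (k - 1 - j))) ∧
    (∀ σ : Equiv.Perm (Fin 3), PositiveDensity (fun i j : Fin 3 => σ i < σ j)) ∧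
    (∀ ε : Fin 3 → Bool, PositiveDensity (fun i j : Fin 4 => ∃ l : Fin 3,
      (ε l = true ∧ i = l.castSucc ∧ j = l.succ) ∨
        (ε l = false ∧ i = l.succ ∧ j = l.castSucc))) :=
  orders_all (fun _ lt => PositiveDensity lt) occ

end Pool.Agent.Results.MP_f9960f_nt.OrderingsOfPositiveDensity
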