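import Pool.Agent.TH915.UC.Fin
import Pool.Agent.H378R2.Final

set_option autoImplicit false

/-!
Chains of `k` consecutive large gaps between primes of a residue class, uniformly in the length of the chain,
which may be as large as a small multiple of `log log X`.

Author: helper915.  It rests on the Maynard-Tao sieve inside the windows of the record sieve for large gaps
(starting files, helper256, helper312, helper362, helper378 and their teams).

What is new in the proof: the weights are attached to the `k` chosen places of the window one at a time, so
that the expected number of primes of the window and the expected number of its close pairs of primes are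
found with the true dependence on `k`; a window with more than `k` times as many primes as close pairs
contains `k + 1` consecutive primes without a close pair.
-/

namespace Pool.Agent.Results.MP_f9960f_nt.UniformChains

/-- There is `c > 0` such that for every squarefree `q`, every `a` prime to `q`, all large `X` and all `k ≥ 1`
with `k φ(q) ≤ c log log X` there are at least `X^(7/8)` indices `n` for which the primes
`p_n < ... < p_{n+k}` lie in `(X, 4X]`, are all `≡ a (mod q)`, and each of the `k` gaps between them is at least
`(c/k²) log X (log₂ X)² log₄ X / (log₃ X)²`. -/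
theorem result : ∃ c : ℝ, 0 < c ∧ ∀ q : ℕ, Squarefree q → ∀ a : ℕ, a.Coprime q →
    ∃ X₀ : ℝ, ∀ X : ℝ, X₀ ≤ X → ∀ k : ℕ, 1 ≤ k → (k : ℝ) * q.totient ≤ c * Real.log (Real.log X) →
    X ^ (7 / 8 : ℝ) ≤ ({n : ℕ | X < Nat.nth Nat.Prime n ∧ (Nat.nth Nat.Prime (n + k) : ℝ) ≤ 4 * X ∧
      (∀ i ≤ k, Nat.nth Nat.Prime (n + i) ≡ a [MOD q]) ∧
      ∀ i < k, c / (k : ℝ) ^ 2 * (Real.log X * (Real.log (Real.log X)) ^ 2 *
          Real.log (Real.log (Real.log (Real.log X))) / (Real.log (Real.log (Real.log X))) ^ 2) ≤
        (Nat.nth Nat.Prime (n + i + 1) : ℝ) - Nat.nth Nat.Prime (n + i)}.ncard : ℝ) :=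
  Pool.Agent.TH915.UC.chains_of Pool.Agent.H378R2.sieveAsymp_holds Pool.Agent.H378R2.bvrel_holds

end Pool.Agent.Results.MP_f9960f_nt.UniformChains
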